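import Pool.Agent.W448.FF.Kernel

/-!
Project FF: invariance of the sums t60 and t15 under permutations of the vertices.
-/

set_option autoImplicit false
set_option linter.all false

namespace Pool.Agent.W333.FF

open Pool.Agent.W448.FF

/-- the sum of the 60 local terms -/
def S60 {V : Type} (f : V → V → V → V → V → ℕ) (a b c d e : V) : ℕ :=
  (((((f a b c d e + (f a b d c e + f a b e c d)) + ((f a c b d e + f a c d b e) + (f a c e b d +
  f a d b c e))) + (((f a d c b e + f a d e b c) + (f a e b c d + f a e c b d)) + ((f a e d b c +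
  f b a c d e) + (f b a d c e + f b a e c d)))) + (((f b c a d e + (f b c d a e + f b c e a d)) +
  ((f b d a c e + f b d c a e) + (f b d e a c + f b e a c d))) + (((f b e c a d + f b e d a c) +
  (f c a b d e + f c a d b e)) + ((f c a e b d + f c b a d e) + (f c b d a e + f c b e a d))))) +
  ((((f c d a b e + (f c d b a e + f c d e a b)) + ((f c e a b d + f c e b a d) + (f c e d a b + f
  d a b c e))) + (((f d a c b e + f d a e b c) + (f d b a c e + f d b c a e)) + ((f d b e a c + f
  d c a b e) + (f d c b a e + f d c e a b)))) + (((f d e a b c + (f d e b a c + f d e c a b)) +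
  ((f e a b c d + f e a c b d) + (f e a d b c + f e b a c d))) + (((f e b c a d + f e b d a c) +
  (f e c a b d + f e c b a d)) + ((f e c d a b + f e d a b c) + (f e d b a c + f e d c a b))))))

/-- the sum of the 15 local terms -/
def S15 {V : Type} (f : V → V → V → V → V → ℕ) (a b c d e : V) : ℕ :=
  (((f a b c d e + (f a b d c e + f a b e c d)) + ((f b a c d e + f b a d c e) + (f b a e c d + f
  c a b d e))) + (((f c a d b e + f c a e b d) + (f d a b c e + f d a c b e)) + ((f d a e b c + f
  e a b c d) + (f e a c b d + f e a d b c))))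

theorem t60_eq {V : Type} (x : ℕ → ℕ → ℕ → ℕ) (G : OG V) (a b c d e : V) :
    onV (t60 x) G a b c d e = S60 (K3 x G) a b c d e := rfl

theorem t15_eq {V : Type} (y : ℕ → ℕ → ℕ) (G : OG V) (a b c d e : V) :
    onV (t15 y) G a b c d e = S15 (K1 y G) a b c d e := rfl

theorem S60_0 {V : Type} (f : V → V → V → V → V → ℕ)
    (h : ∀ a b c d e, f a b c e d = f a b c d e) (a b c d e : V) :
    S60 f b a c d e = S60 f a b c d e := by
  have h1 : ∀ i j k, f i j k b a = f i j k a b := fun i j k => h i j k a b
  unfold S60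
  simp only [h1]
  ring

theorem S60_1 {V : Type} (f : V → V → V → V → V → ℕ)
    (h : ∀ a b c d e, f a b c e d = f a b c d e) (a b c d e : V) :
    S60 f a c b d e = S60 f a b c d e := by
  have h1 : ∀ i j k, f i j k c b = f i j k b c := fun i j k => h i j k b c
  unfold S60
  simp only [h1]
  ring

theorem S60_2 {V : Type} (f : V → V → V → V → V → ℕ)
    (h : ∀ a b c d e, f a b c e d = f a b c d e) (a b c d e : V) :
    S60 f a b d c e = S60 f a b c d e := by
  have h1 : ∀ i j k, f i j k d c = f i j k c d := fun i j k => h i j k c d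
  unfold S60
  simp only [h1]
  ring

theorem S60_3 {V : Type} (f : V → V → V → V → V → ℕ)
    (h : ∀ a b c d e, f a b c e d = f a b c d e) (a b c d e : V) :
    S60 f a b c e d = S60 f a b c d e := by
  have h1 : ∀ i j k, f i j k e d = f i j k d e := fun i j k => h i j k d e
  unfold S60
  simp only [h1]
  ring

theorem S15_0 {V : Type} (f : V → V → V → V → V → ℕ)
    (h1 : ∀ v a b c d, f v b a c d = f v a b c d) (h2 : ∀ v a b c d, f v a b d c = f v a b c d)
    (h3 : ∀ v a b c d, f v c d a b = f v a b c d) (a b c d e : V) :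
    S15 f b a c d e = S15 f a b c d e := by
  unfold S15
  simp only [h1, h2, h3]
  ring

theorem S15_1 {V : Type} (f : V → V → V → V → V → ℕ)
    (h1 : ∀ v a b c d, f v b a c d = f v a b c d) (h2 : ∀ v a b c d, f v a b d c = f v a b c d)
    (h3 : ∀ v a b c d, f v c d a b = f v a b c d) (a b c d e : V) :
    S15 f a c b d e = S15 f a b c d e := by
  unfold S15
  simp only [h1, h2, h3]
  ring

theorem S15_2 {V : Type} (f : V → V → V → V → V → ℕ)
    (h1 : ∀ v a b c d, f v b a c d = f v a b c d) (h2 : ∀ v a b c d, f v a b d c = f v a b c d)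
    (h3 : ∀ v a b c d, f v c d a b = f v a b c d) (a b c d e : V) :
    S15 f a b d c e = S15 f a b c d e := by
  unfold S15
  simp only [h1, h2, h3]
  ring

theorem S15_3 {V : Type} (f : V → V → V → V → V → ℕ)
    (h1 : ∀ v a b c d, f v b a c d = f v a b c d) (h2 : ∀ v a b c d, f v a b d c = f v a b c d)
    (h3 : ∀ v a b c d, f v c d a b = f v a b c d) (a b c d e : V) :
    S15 f a b c e d = S15 f a b c d e := by
  unfold S15
  simp only [h1, h2, h3]
  ring

theorem ac_cases {V : Type} (G : OG V) (a b : V) : (ac G a b = 0 ∧ ac G b a = 0) ∨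
    (ac G a b = 1 ∧ ac G b a = 2) ∨ (ac G a b = 2 ∧ ac G b a = 1) := by
  classical
  unfold ac
  by_cases h1 : G.arc a b
  · have h2 : ¬ G.arc b a := fun h => G.asymm _ _ h1 h
    simp [h1, h2]
  · by_cases h2 : G.arc b a
    · simp [h1, h2]
    · simp [h1, h2]

theorem ac_lt {V : Type} (G : OG V) (a b : V) : ac G a b < 3 := by
  rcases ac_cases G a b with h | h | h <;> omega

theorem inv : S_INV := by
  refine ⟨fun x hx V G => ?_, fun y hy hy2 V G => ?_⟩
  · have h : ∀ a b c d e, K3 x G a b c e d = K3 x G a b c d e := fun a b c d e => hx _ _ _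
    refine ⟨fun a b c d e => ?_, fun a b c d e => ?_, fun a b c d e => ?_, fun a b c d e => ?_⟩
    · rw [t60_eq, t60_eq]; exact S60_0 _ h a b c d e
    · rw [t60_eq, t60_eq]; exact S60_1 _ h a b c d e
    · rw [t60_eq, t60_eq]; exact S60_2 _ h a b c d e
    · rw [t60_eq, t60_eq]; exact S60_3 _ h a b c d e
  · have h3 : ∀ v a b c d, K1 y G v c d a b = K1 y G v a b c d := fun v a b c d => hy _ _
    have h1 : ∀ v a b c d, K1 y G v b a c d = K1 y G v a b c d := by
      intro v a b c d
      unfold K1
      rcases ac_cases G a b with ⟨e1, e2⟩ | ⟨e1, e2⟩ | ⟨e1, e2⟩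
      · rw [e1, e2]
        exact (hy2 _ _ (ac_lt G v b) _ (ac_lt G v a)).1
      · rw [e1, e2]
        exact ((hy2 _ _ (ac_lt G v a) _ (ac_lt G v b)).2).symm
      · rw [e1, e2]
        exact (hy2 _ _ (ac_lt G v b) _ (ac_lt G v a)).2
    have h2 : ∀ v a b c d, K1 y G v a b d c = K1 y G v a b c d := by
      intro v a b c d
      rw [← h3 v a b d c, h1, h3]
    refine ⟨fun a b c d e => ?_, fun a b c d e => ?_, fun a b c d e => ?_, fun a b c d e => ?_⟩
    · rw [t15_eq, t15_eq]; exact S15_0 _ h1 h2 h3 a b c d e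
    · rw [t15_eq, t15_eq]; exact S15_1 _ h1 h2 h3 a b c d e
    · rw [t15_eq, t15_eq]; exact S15_2 _ h1 h2 h3 a b c d e
    · rw [t15_eq, t15_eq]; exact S15_3 _ h1 h2 h3 a b c d e

end Pool.Agent.W333.FF
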